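import Pool.Agent.H91.QW.FGDefs
import Pool.Agent.H95.DC.Defs
import Pool.Agent.H95.DC.FibDefs

/-!
# Étale motivic cohomology of arithmetic schemes, and coverings of affine spaces: definitions
-/

set_option autoImplicit false

open CategoryTheory AlgebraicGeometry MvPolynomial Pool.Agent.Y116.UV Pool.Agent.H91.QW
  Pool.Agent.H95.DC

namespace Pool.Agent.H95.EM

/-- What is used about the groups `H n i X = H^i(X_et, ℤ^c(n))`, `n < 0`, of the arithmetic schemes,
besides `IsEtaleMotivic`: the groups of an open and closed subscheme of `X` are direct factors of those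
of `X`; and if `q : V ⟶ S` is flat and all its fibres are affine spaces of dimension `r`, then
`H^i(V, ℤ^c(n)) = H^{i+2r}(S, ℤ^c(n-r))` (flat pull-back). -/
structure IsFlatEtaleMotivic (H : ℤ → ℤ → Sch ℤ → ModuleCat.{0} ℤ) : Prop
    extends IsEtaleMotivic H where
  clopen : ∀ n < 0, ∀ {Z X : Sch ℤ} (i : Z ⟶ X), FT True X → IsClosedImmersion i.left →
    IsOpenImmersion i.left → ∀ l, IsFactor 1 (H n l Z) (H n l X)
  fibres : ∀ n < 0, ∀ {V S : Sch ℤ} (q : V ⟶ S) (r : ℕ), FT True V → FT True S → Flat q.left →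
    AffineFibres q.left r → ∀ l, Nonempty (H n l V ≅ H (n - r) (l + 2 * r) S)

/-- All groups `H^i(X_et, ℤ^c(n))`, `i ∈ ℤ`, of the weight `n` are finitely generated. -/
def FG (H : ℤ → ℤ → Sch ℤ → ModuleCat.{0} ℤ) (n : ℤ) (X : Sch ℤ) : Prop :=
  ∀ i, Module.Finite ℤ (H n i X)

/-- All groups `H^i(X_et, ℤ^c(n))` with `n < - a` are finitely generated, for some `a`. -/
def Eventually (H : ℤ → ℤ → Sch ℤ → ModuleCat.{0} ℤ) (X : Sch ℤ) : Prop :=
  ∃ a : ℕ, FGBelow H a X

/-- The double covering `w (w - 1) = ∑ x_l f_l(z)` of the affine space over `ℤ` with the coordinates `z_s`,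
`s ∈ σ`, and `x_1, …, x_m`. -/
noncomputable def dblS {σ : Type} {m : ℕ} (f : Fin m → MvPolynomial σ ℤ) : Sch ℤ := covS {0, 1} f

/-- The double coverings `w (w - 1) = ∑ x_l f_l(y, z)` with the bilinear forms `f_l` which are sums of at
most three monomials `y_i z_j`. -/
def sparse : Set (Sch ℤ) :=
  {Y | ∃ (a b c : ℕ) (E : Fin c → Finset (Fin a × Fin b)), (∀ l, (E l).card ≤ 3) ∧
    Y = dblS (bf ℤ E)}

/-- The double coverings `w (w - 1) = t(x, y, z)` with the trilinear forms `t` over `ℤ` with `c` variables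
`z`. -/
def forms (c : ℕ) : Set (Sch ℤ) :=
  {Y | ∃ (a b : ℕ) (t : Fin a → Fin b → Fin c → ℤ), Y = dblS (bq t)}

/-- The closed subschemes of the affine space of dimension `N` over `ℤ`. -/
def closedIn (N : ℕ) : Set (Sch ℤ) :=
  {Y | ∃ I : Ideal (MvPolynomial (Fin N) ℤ), Y = aff ℤ (MvPolynomial (Fin N) ℤ ⧸ I)}

/-- Finite generation for the arithmetic scheme `X` reduces to finitely many schemes of the family `F`:
there are finitely many schemes `Y` in `F` and a number `b` such that for all étale motivic cohomologies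
`H` and all `a`, if all groups `H^i(Y_et, ℤ^c(n))`, `n < - a`, of these schemes `Y` are finitely generated,
then all groups `H^i(X_et, ℤ^c(n))`, `n < - (a + b)`, are finitely generated. -/
def ReducesTo (F : Set (Sch ℤ)) (X : Sch ℤ) : Prop :=
  ∃ (b : ℕ) (L : Set (Sch ℤ)), L.Finite ∧ L ⊆ F ∧
    ∀ H : ℤ → ℤ → Sch ℤ → ModuleCat.{0} ℤ, IsFlatEtaleMotivic H →
      ∀ a : ℕ, (∀ Y ∈ L, FGBelow H a Y) → FGBelow H (a + b) X

end Pool.Agent.H95.EM
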