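import Pool.Agent.H95.EM.Main

/-!
# Étale motivic cohomology of arithmetic schemes, and coverings of affine spaces: all weights
-/

set_option autoImplicit false

open CategoryTheory AlgebraicGeometry MvPolynomial Pool.Agent.Y116.UV Pool.Agent.Z125.UN
  Pool.Agent.H91.QW Pool.Agent.H95.DC

namespace Pool.Agent.H95.EM

lemma fg_iff (H : ℤ → ℤ → Sch ℤ → ModuleCat.{0} ℤ) (X : Sch ℤ) :
    FGBelow H 0 X ↔ ∀ n < 0, FG H n X :=
  ⟨fun h n hn => h n (by simpa using hn), fun h n hn => h n (by simpa using hn)⟩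

section up

variable {H : ℤ → ℤ → Sch ℤ → ModuleCat.{0} ℤ} (hH : IsEtaleMotivic H)

include hH

lemma up_fg (a : ℕ) : Up True (FGBelow H a) where
  iso hX e h := fg_isoX hH hX e h
  total i j hX ht hZ hU := fg_total hH i j hX ht hZ hU
  opened i j hX ht hZ hX' := fg_opened hH i j hX ht hZ hX'
  closed i j hX ht hX' hU := fg_closed hH i j hX ht hX' hU
  poly A _ _ hA h := fg_line' hH A hA _ h

omit hH in
lemma dim_quot_int {c : ℕ} (I : Ideal (MvPolynomial (Fin c) ℤ)) (hI : I ≠ ⊥) :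
    ringKrullDim (MvPolynomial (Fin c) ℤ ⧸ I) ≤ c := by
  obtain ⟨f, hf, hf0⟩ := Submodule.exists_mem_ne_zero_of_ne_bot hI
  have h1 : ringKrullDim (MvPolynomial (Fin c) ℤ ⧸ Ideal.span {f}) + 1 ≤
      ringKrullDim (MvPolynomial (Fin c) ℤ) :=
    ringKrullDim_quotient_succ_le_of_nonZeroDivisor (mem_nonZeroDivisors_of_ne_zero hf0)
  have h0 : ringKrullDim ℤ ≤ 1 := by exact_mod_cast Ring.krullDimLE_iff.mp inferInstance
  have h1' : ringKrullDim (MvPolynomial (Fin c) ℤ) ≤ ((c + 1 : ℕ) : WithBot ℕ∞) := by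
    rw [MvPolynomial.ringKrullDim_of_isNoetherianRing, Nat.card_eq_fintype_card, Fintype.card_fin]
    push_cast
    rw [add_comm]
    exact add_le_add le_rfl h0
  have h2 : ringKrullDim (MvPolynomial (Fin c) ℤ ⧸ I) ≤
      ringKrullDim (MvPolynomial (Fin c) ℤ ⧸ Ideal.span {f}) := by
    have hle : Ideal.span {f} ≤ I := by
      rw [Ideal.span_le, Set.singleton_subset_iff]
      exact hf
    exact ringKrullDim_le_of_surjective (Ideal.Quotient.factor hle)
      (Ideal.Quotient.factor_surjective hle)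
  refine h2.trans ?_
  have h4 := h1.trans h1'
  rw [ENat.WithBot.add_one_le_natCast_iff] at h4
  have h3 : ((c + 1 : ℕ) : WithBot ℕ∞) = (c : WithBot ℕ∞) + 1 := by push_cast; rfl
  rw [h3] at h4
  exact ENat.WithBot.lt_add_one_iff.mp h4

/-- closed subschemes of the affine space of dimension `c ≤ N` -/
lemma fg_closedIn {N : ℕ} (h : FGDim H N) {c : ℕ} (hc : c ≤ N)
    (I : Ideal (MvPolynomial (Fin c) ℤ)) : FGBelow H 0 (aff ℤ (MvPolynomial (Fin c) ℤ ⧸ I)) := by
  by_cases hI : I = ⊥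
  · subst hI
    exact fg_isoX hH (ft_aff True) ⟨(affIso (AlgEquiv.quotientBot ℤ _).symm).symm⟩ (fg_space hH c)
  · refine h _ (ft_aff True) ?_
    rw [show topologicalKrullDim (aff ℤ (MvPolynomial (Fin c) ℤ ⧸ I)).left =
      ringKrullDim (MvPolynomial (Fin c) ℤ ⧸ I) from
        PrimeSpectrum.topologicalKrullDim_eq_ringKrullDim _]
    exact (dim_quot_int I hI).trans (by exact_mod_cast hc)

/-- locally closed subschemes of the affine space of dimension `c ≤ N` -/
lemma fg_piece {N : ℕ} (h : FGDim H N) {c : ℕ} (hc : c ≤ N) (κ : Type)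
    (g : κ → MvPolynomial (Fin c) ℤ) (w : MvPolynomial (Fin c) ℤ) :
    FGBelow H 0 (aff ℤ (Pc g w)) := by
  have h1 : ∀ (κ : Type) (g : κ → MvPolynomial (Fin c) ℤ), FGBelow H 0 (aff ℤ (Pc g 1)) :=
    fun κ g => fg_isoX hH (ft_aff True) ⟨(affIso (oneE g)).symm⟩ (fg_closedIn hH h hc _)
  have h2 := up_open (up_fg hH 0) (h1 κ g) (h1 (Option κ) (adj g w))
  rwa [one_mul] at h2

/-- the zero schemes of bilinear forms with few variables in the second block -/
lemma fg_bilin {N : ℕ} (h : FGDim H N) {a b c : ℕ} (hb : b ≤ N + 1)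
    (t : Fin a → Fin b → Fin c → ℤ) : FGBelow H 0 (zeroS (bq t)) := by
  let T : Fin c → Fin a → Fin b → ℤ := fun l i j => t i j l
  have h1 : FGBelow H 0 (aff ℤ (Pc (bl T) 1)) :=
    up_bilin (up_fg hH 0) (fg_space hH) b (fun c' hc' κ g w => fg_piece hH h (by omega) κ g w) T
  have h2 : bq t = bl T := rfl
  have h3 : FGBelow H 0 (aff ℤ (MvPolynomial (Fin a ⊕ Fin b) ℤ ⧸ Ideal.span (Set.range (bl T)))) :=
    fg_isoX hH (ft_aff True) ⟨affIso (oneE (bl T))⟩ h1
  exact h3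

end up

section exact

variable {H : ℤ → ℤ → Sch ℤ → ModuleCat.{0} ℤ} (hH : IsFlatEtaleMotivic H)

include hH

/-- **The weights.** -/
theorem exact_iff {n : ℤ} (hn : n < 0) {σ : Type} [Fintype σ] {m : ℕ}
    (f : Fin m → MvPolynomial σ ℤ) : FG H n (dblS f) ↔ FG H (n - m) (zeroS f) := by
  refine fg_cov_iff hH hn f ?_ {0, 1} unitDiff_two card_two
  have hn' : n - m < 0 := by omega
  refine loc_iso (loc_fg hH hn') (renameEquiv ℤ (Fintype.equivFin σ).symm) ?_
  exact (fg_iff H _).mp (fg_space hH.toIsEtaleMotivic _) _ hn'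

lemma fg_dbl {σ : Type} [Fintype σ] {m : ℕ} (f : Fin m → MvPolynomial σ ℤ)
    (h : FGBelow H 0 (zeroS f)) : FGBelow H 0 (dblS f) :=
  (fg_iff H _).mpr fun n hn => (exact_iff hH hn f).mpr ((fg_iff H _).mp h (n - m) (by omega))

/-- **Few variables.** -/
theorem few {N : ℕ} (h : FGDim H N) :
    (∀ (m : ℕ) (f : Fin m → MvPolynomial (Fin N) ℤ), FGBelow H 0 (dblS f)) ∧
    (∀ (n m : ℕ) (f : Fin m → MvPolynomial (Fin n) ℤ),
      topologicalKrullDim (zeroS f).left ≤ N → FGBelow H 0 (dblS f)) ∧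
    ∀ (a b c : ℕ) (t : Fin a → Fin b → Fin c → ℤ), b ≤ N + 1 → FGBelow H 0 (dblS (bq t)) :=
  ⟨fun _ f => fg_dbl hH f (fg_closedIn hH.toIsEtaleMotivic h le_rfl _),
    fun _ _ f hf => fg_dbl hH f (h _ (ft_aff True) hf),
    fun _ _ _ t hb => fg_dbl hH (bq t) (fg_bilin hH.toIsEtaleMotivic h hb t)⟩

/-- **Equivalence for all arithmetic schemes.** -/
theorem all_iff : (∀ X : Sch ℤ, FT True X → Eventually H X) ↔
    ∀ (a b c : ℕ) (E : Fin c → Finset (Fin a × Fin b)), (∀ l, (E l).card ≤ 3) →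
      Eventually H (dblS (bf ℤ E)) := by
  constructor
  · intro h a b c E _
    exact h _ (ft_aff True)
  · intro h X hX
    obtain ⟨b, L, h1, h2, h3⟩ := reduces_sparse X hX
    classical
    have h4 : ∀ Y ∈ L, ∃ a : ℕ, FGBelow H a Y := by
      intro Y hY
      obtain ⟨a, b, c, E, hE, rfl⟩ := h2 hY
      exact h a b c E hE
    choose! α hα using h4
    refine ⟨(∑ Y ∈ h1.toFinset, α Y) + b, h3 H hH _ fun Y hY => fg_mono ?_ (hα Y hY)⟩
    exact Finset.single_le_sum (f := α) (fun _ _ => Nat.zero_le _) (h1.mem_toFinset.mpr hY)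

end exact

/-- The coverings are smooth over `ℤ`. -/
theorem smooth_dbl {σ : Type} [Finite σ] {m : ℕ} (f : Fin m → MvPolynomial σ ℤ) :
    Smooth (dblS f).hom := by
  change Smooth (Spec.map (CommRingCat.ofHom (algebraMap ℤ (Cov {0, 1} f))))
  rw [HasRingHomProperty.Spec_iff (P := @Smooth)]
  exact RingHom.smooth_algebraMap.mpr (covS_smooth {0, 1} unitDiff_two f)

end Pool.Agent.H95.EM
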