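import Pool.Agent.H95.PR.W

/-!
# Coverings of affine spaces and the zero schemes, in one weight
-/

set_option autoImplicit false

open CategoryTheory CategoryTheory.Limits AlgebraicGeometry MvPolynomial Pool.Agent.Y116.UV
  Pool.Agent.Z125.UN Pool.Agent.H95.DC

namespace Pool.Agent.H95.EM

/-- The property is closed under closed-open decompositions and passes to open and closed subschemes. -/
structure Loc {R : Type} [CommRing R] (sep : Prop) (P : Sch R → Prop) : Prop where
  iso : ∀ {X Y : Sch R}, FT sep X → Nonempty (X ≅ Y) → P X → P Y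
  total : ∀ {Z X U : Sch R} (i : Z ⟶ X) (j : U ⟶ X), FT sep X → IsTriple i j → P Z → P U → P X
  opened : ∀ {Z X U : Sch R} (i : Z ⟶ X) (j : U ⟶ X), FT sep X → IsTriple i j → P Z → P X → P U
  closed : ∀ {Z X U : Sch R} (i : Z ⟶ X) (j : U ⟶ X), FT sep X → IsTriple i j → P X → P U → P Z
  clopen : ∀ {Z X : Sch R} (i : Z ⟶ X), FT sep X → IsClosedImmersion i.left →
    IsOpenImmersion i.left → P X → P Z

variable {R : Type} [CommRing R] {sep : Prop} {P Q : Sch R → Prop} (hP : Loc sep P)

include hP

lemma loc_iso {A B : Type} [CommRing A] [CommRing B] [Algebra R A] [Algebra R B]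
    [Algebra.FiniteType R A] (e : A ≃ₐ[R] B) (h : P (aff R A)) : P (aff R B) :=
  hP.iso (ft_aff sep) ⟨(affIso e).symm⟩ h

lemma loc_empty {A : Type} [CommRing A] [Algebra R A] [Algebra.FiniteType R A] (h1 : P (aff R A))
    (B : Type) [CommRing B] [Algebra R B] (hB : Subsingleton B) : P (aff R B) := by
  have h2 : P (aff R (Localization.Away (1 : A))) := by
    have e := IsLocalization.atUnits A (Submonoid.powers (1 : A)) (S := Localization.Away (1 : A))
      (by rintro _ ⟨n, rfl⟩; simp)
    exact loc_iso hP (e.restrictScalars R) h1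
  have h3 : P (aff R (A ⧸ Ideal.span {(1 : A)})) :=
    hP.closed _ _ (ft_aff sep) (triple_away (1 : A)) h1 h2
  have h4 : Subsingleton (A ⧸ Ideal.span {(1 : A)}) :=
    Ideal.Quotient.subsingleton_iff.mpr Ideal.span_singleton_one
  let e : (A ⧸ Ideal.span {(1 : A)}) ≃ₐ[R] B :=
    AlgEquiv.ofRingEquiv (f := { toFun := fun _ => 0
                                 invFun := fun _ => 0
                                 left_inv := fun _ => Subsingleton.elim _ _
                                 right_inv := fun _ => Subsingleton.elim _ _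
                                 map_mul' := fun _ _ => Subsingleton.elim _ _
                                 map_add' := fun _ _ => Subsingleton.elim _ _ })
      (fun _ => Subsingleton.elim _ _)
  exact loc_iso hP e h3

lemma loc_prod (C D : Type) [CommRing C] [CommRing D] [Algebra R C] [Algebra R D]
    [Algebra.FiniteType R C] [Algebra.FiniteType R D] :
    P (aff R (C × D)) ↔ P (aff R C) ∧ P (aff R D) := by
  have : Algebra.FiniteType R (C × D) := inferInstance
  constructor
  · intro h
    exact ⟨hP.clopen _ (ft_aff sep) (closed_affMap _ Prod.fst_surjective) (open_fst C D) h,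
      hP.clopen _ (ft_aff sep) (closed_affMap _ Prod.snd_surjective) (open_snd C D) h⟩
  · rintro ⟨h1, h2⟩
    exact hP.total _ _ (ft_aff sep) (triple_prod C D) h1 h2

lemma loc_roots (D : Type) [CommRing D] [Algebra R D] [Algebra.FiniteType R D]
    (T : Finset R) (hD : UnitDiff T) (hT : T.Nonempty) :
    P (aff R (AdjoinRoot (sp D T))) ↔ P (aff R D) := by
  have h1 : ∀ (T : Finset R) (c : R) (hc : c ∉ T), UnitDiff (Finset.cons c T hc) →
      (P (aff R (AdjoinRoot (sp D (Finset.cons c T hc)))) ↔
        P (aff R D) ∧ P (aff R (AdjoinRoot (sp D T)))) := by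
    intro T c hc hu
    rw [← loc_prod hP]
    exact ⟨loc_iso hP (crtA D T c hc hu), loc_iso hP (crtA D T c hc hu).symm⟩
  have h2 : ∀ T : Finset R, UnitDiff T → P (aff R D) → P (aff R (AdjoinRoot (sp D T))) := by
    intro T hu h
    induction T using Finset.cons_induction with
    | empty =>
      apply loc_empty hP h
      have : sp D (∅ : Finset R) = 1 := Finset.prod_empty
      rw [this]
      exact Ideal.Quotient.subsingleton_iff.mpr Ideal.span_singleton_one
    | cons c T hc ih => exact (h1 T c hc hu).mpr ⟨h, ih hu.of_cons⟩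
  constructor
  · obtain ⟨T', c, hc, rfl⟩ := hT.exists_cons_eq
    intro h
    exact ((h1 T' c hc hD).mp h).1
  · exact h2 T hD

variable {A : Type} [CommRing A] [Algebra R A] [Algebra.FiniteType R A] [IsNoetherianRing R]
  {m : ℕ} (f : Fin m → A)
  (hQ : ∀ {V S : Sch R} (q : V ⟶ S), FT sep V → FT sep S → Flat q.left →
    AffineFibres q.left m → Q S → P V)
  (hX : ∀ (B : Type) [CommRing B] [Algebra R B] [Algebra.FiniteType R B],
    P (aff R (MvPolynomial (Fin m) B)) ↔ Q (aff R B))

include hQ

omit hP in
lemma loc_open (S' : Finset R) (c₀ : R) (hc : c₀ ∉ S') (hu : UnitDiff (Finset.cons c₀ S' hc))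
    (hA : Q (aff R A)) :
    P (opn (aff R (Cov (Finset.cons c₀ S' hc) f)) (opU S' c₀ hc f)) := by
  let B := Cov (Finset.cons c₀ S' hc) f
  have hN : IsNoetherianRing B := Algebra.FiniteType.isNoetherianRing R B
  have hft : FT sep (opn (aff R B) (opU S' c₀ hc f)) := by
    apply ft_opn (ft_aff sep)
    exact TopologicalSpace.NoetherianSpace.isCompact (α := PrimeSpectrum B) _
  let q : opn (aff R B) (opU S' c₀ hc f) ⟶ aff R A :=
    opnMap _ _ ≫ affMap (IsScalarTower.toAlgHom R A B)
  have hflat : Module.Flat A B := flat_cov f _ (Finset.cons_nonempty hc)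
  have hq1 : Flat (Spec.map (CommRingCat.ofHom (algebraMap A B))) := by
    rw [Flat.SpecMap_iff]
    exact RingHom.flat_algebraMap_iff.mpr hflat
  let U : (Spec (CommRingCat.of B)).Opens := opU S' c₀ hc f
  have hq : Flat q.left :=
    inferInstanceAs (Flat (U.ι ≫ Spec.map (CommRingCat.ofHom (algebraMap A B))))
  refine hQ q hft (ft_aff sep) hq ?_ hA
  refine cov_fibres S' c₀ hc f hu (opU S' c₀ hc f) fun x => ?_
  change x ∈ (Set.range (affMap (thetaK S' c₀ hc f)).left)ᶜ ↔ _
  rw [range_affMap _ (thetaK_surj S' c₀ hc f)]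
  exact not_congr (theta_range S' _ (Finset.subset_cons hc) f x)

include hX

/-- **The covering and the zero scheme.** -/
theorem loc_cov_iff (hA : Q (aff R A)) (S : Finset R) (hu : UnitDiff S) (hS : 2 ≤ S.card) :
    P (aff R (Cov S f)) ↔ Q (aff R (A ⧸ Ideal.span (Set.range f))) := by
  have hne : S.Nonempty := Finset.card_pos.mp (by omega)
  obtain ⟨S', c₀, hc, rfl⟩ := hne.exists_cons_eq
  rw [Finset.card_cons] at hS
  have hS' : S'.Nonempty := Finset.card_pos.mp (by omega)
  have hU := loc_open (P := P) (Q := Q) f hQ S' c₀ hc hu hA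
  have h1 : P (aff R (Cov (Finset.cons c₀ S' hc) f)) ↔ P (aff R (WW S' f)) :=
    ⟨fun h => hP.closed _ _ (ft_aff sep) (triple_cov S' c₀ hc f) h hU,
      fun h => hP.total _ _ (ft_aff sep) (triple_cov S' c₀ hc f) h hU⟩
  have h2 : P (aff R (WW S' f)) ↔ P (aff R (DD f)) :=
    loc_roots hP (DD f) S' hu.of_cons hS'
  rw [h1, h2]
  exact hX _

end Pool.Agent.H95.EM
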