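import Pool.Agent.H91.QW.Up
import Pool.Agent.H89.L.Z125_UN_Deh

/-!
# Bilinear systems, for properties closed under closed-open decompositions and products with lines
-/

set_option autoImplicit false

open CategoryTheory AlgebraicGeometry MvPolynomial Pool.Agent.Y116.UV Pool.Agent.Z125.UN
  Pool.Agent.H91.QW

namespace Pool.Agent.H95.EM

variable {R : Type} [CommRing R] {sep : Prop} {P : Sch R → Prop} (hP : Up sep P)

section split

variable {σ κ : Type} [Finite σ] {G : κ → MvPolynomial σ R} {w e : MvPolynomial σ R}

include hP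

lemma up_total (hc : P (aff R (Pc (adj G e) w))) (ho : P (aff R (Pc G (w * e)))) :
    P (aff R (Pc G w)) :=
  hP.total _ _ (ft_aff sep) (triple_away (pc G w e))
    (Pool.Agent.H91.QW.iso_alg hP (cloE G w e).symm hc)
    (Pool.Agent.H91.QW.iso_alg hP (opnE G w e).symm ho)

lemma up_open (hw : P (aff R (Pc G w))) (hc : P (aff R (Pc (adj G e) w))) :
    P (aff R (Pc G (w * e))) :=
  have : Algebra.FiniteType R (Localization.Away (pc G w e)) :=
    Algebra.FiniteType.trans (S := Pc G w) inferInstance inferInstance
  Pool.Agent.H91.QW.iso_alg hP (opnE G w e) (hP.opened _ _ (ft_aff sep) (triple_away (pc G w e))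
    (Pool.Agent.H91.QW.iso_alg hP (cloE G w e).symm hc) hw)

lemma up_poly (τ : Type) [Fintype τ] (h : P (aff R (Pc G w))) :
    P (aff R (Pc (rl G τ) (rename Sum.inl w))) := by
  have : Algebra.FiniteType R (MvPolynomial τ (Pc G w)) :=
    Algebra.FiniteType.trans (S := Pc G w) inferInstance inferInstance
  exact Pool.Agent.H91.QW.iso_alg hP (polyE G w τ) (Pool.Agent.H91.QW.p_poly hP τ h)

/-- the product with the multiplicative group -/
lemma up_gm (h : P (aff R (Pc G w))) : P (aff R (Pc (rl G Unit) (rename Sum.inl w * xs))) :=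
  up_open hP (up_poly hP Unit h) (Pool.Agent.H91.QW.iso_alg hP (lineE G w) h)

end split

section space

include hP

/-- affine spaces -/
lemma up_space (h0 : ∀ n : ℕ, P (aff R (MvPolynomial (Fin n) R))) {σ : Type} [Fintype σ] :
    P (aff R (Pc (fun k : Empty => (k.elim : MvPolynomial σ R)) 1)) := by
  have h1 : P (aff R (MvPolynomial σ R)) :=
    Pool.Agent.H91.QW.iso_alg hP (renameEquiv R (Fintype.equivFin σ).symm) (h0 _)
  have h2 : Ideal.span (Set.range (fun k : Empty => (k.elim : MvPolynomial σ R))) = ⊥ := by
    rw [Set.range_eq_empty, Ideal.span_empty]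
  have h3 : P (aff R (MvPolynomial σ R ⧸
      Ideal.span (Set.range (fun k : Empty => (k.elim : MvPolynomial σ R))))) := by
    rw [h2]
    exact Pool.Agent.H91.QW.iso_alg hP (AlgEquiv.quotientBot R (MvPolynomial σ R)).symm h1
  exact Pool.Agent.H91.QW.iso_alg hP (oneE _) h3

end space

section pieces

variable {τ : Type} [Finite τ]

include hP

/-- If the property is true for all locally closed subschemes of an affine space, then it is true for
the solutions of systems of linear equations over these. -/
theorem up_pieces (hN : ∀ (κ : Type) (g : κ → MvPolynomial τ R) (w : MvPolynomial τ R),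
      P (aff R (Pc g w))) (n : ℕ) :
    ∀ (β : Type) (_ : Fintype β), Fintype.card β = n → ∀ (α : Type) (_ : Fintype α) (q : ℕ)
      (κ : Type) (g : κ → MvPolynomial τ R) (w : MvPolynomial τ R)
      (M : α → β → MvPolynomial τ R),
      Nat.card {p : α × β // M p.1 p.2 ≠ 0} ≤ q → P (aff R (Pc (sys g M) (rename Sum.inl w))) := by
  classical
  induction n using Nat.strong_induction_on with
  | _ n ihn =>
  intro β _ hβ α _ q
  induction q with
  | zero =>
    intro κ g w M hM
    have h0 : ∀ i j, M i j = 0 := by
      intro i j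
      by_contra h
      have h1 : Nat.card {p : α × β // M p.1 p.2 ≠ 0} = 0 := Nat.le_zero.mp hM
      rw [Nat.card_eq_zero] at h1
      rcases h1 with h1 | h1
      · exact h1.false ⟨(i, j), h⟩
      · exact h1.not_finite inferInstance
    exact Pool.Agent.H91.QW.iso_alg hP (zeroE g w M h0) (up_poly hP β (hN κ g w))
  | succ q ihq =>
    intro κ g w M hM
    by_cases h0 : ∀ i j, M i j = 0
    · exact Pool.Agent.H91.QW.iso_alg hP (zeroE g w M h0) (up_poly hP β (hN κ g w))
    · push Not at h0
      obtain ⟨i, j, hij⟩ := h0
      refine up_total hP (e := rename Sum.inl (M i j)) ?_ ?_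
      · refine Pool.Agent.H91.QW.iso_alg hP (zapE g w M i j) (ihq (Option κ) _ w _ ?_)
        have h1 : Nat.card {p : α × β // zap M i j p.1 p.2 ≠ 0} <
            Nat.card {p : α × β // M p.1 p.2 ≠ 0} := by
          let f : {p : α × β // zap M i j p.1 p.2 ≠ 0} → {p : α × β // M p.1 p.2 ≠ 0} := fun p =>
            ⟨p.1, by
              have h2 := p.2
              by_cases h3 : p.1.1 = i ∧ p.1.2 = j
              · rw [h3.1, h3.2, zap_self] at h2
                exact absurd rfl h2
              · rwa [zap_ne M i j h3] at h2⟩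
          rw [Nat.card_eq_fintype_card, Nat.card_eq_fintype_card]
          refine Fintype.card_lt_of_injective_of_notMem f ?_ (b := ⟨(i, j), hij⟩) ?_
          · intro x y h
            exact Subtype.ext (congrArg (fun z => z.1) h)
          · rintro ⟨x, hx⟩
            have h3 : x.1 = (i, j) := congrArg (fun z => z.1) hx
            have h2 := x.2
            rw [h3] at h2
            exact h2 (zap_self M i j)
        omega
      · refine Pool.Agent.H91.QW.iso_alg hP (pivE g w M i j) ?_
        have hc : Fintype.card {j' : β // j' ≠ j} = n - 1 := by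
          rw [Fintype.card_subtype_compl, Fintype.card_subtype_eq, hβ]
        have hn : 0 < n := by
          rw [← hβ]
          exact Fintype.card_pos_iff.mpr ⟨j⟩
        have h1 := ihn (n - 1) (by omega) {j' : β // j' ≠ j} inferInstance hc α inferInstance
          _ κ g (w * M i j) (piv M i j) le_rfl
        rwa [map_mul] at h1

/-- Bilinear systems with `c` variables `z` in the second block. -/
theorem up_bilin (h0 : ∀ n : ℕ, P (aff R (MvPolynomial (Fin n) R))) {α β : Type} [Fintype α]
    [Fintype β] : ∀ (c : ℕ)
    (_ : ∀ c' < c, ∀ (κ : Type) (g : κ → MvPolynomial (Fin c') R) (w : MvPolynomial (Fin c') R),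
      P (aff R (Pc g w))) (T : α → β → Fin c → R), P (aff R (Pc (bl T) 1)) := by
  intro c
  induction c with
  | zero =>
    intro _ T
    refine Pool.Agent.H91.QW.iso_alg hP (pcSame ?_ ?_ ?_ ?_) (up_space hP h0 (σ := β ⊕ Fin 0))
    · exact fun k => k.elim
    · rw [map_one]
      exact isUnit_one
    · intro i
      rw [bl, bil_apply]
      simp
    · rw [map_one]
      exact isUnit_one
  | succ c ih =>
    intro h T
    refine up_total hP (e := zl β R c) ?_ ?_
    · exact Pool.Agent.H91.QW.iso_alg hP (hypE T) (ih (fun c' hc' => h c' (by omega)) (tl T))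
    · refine Pool.Agent.H91.QW.iso_alg hP (opE T) (up_gm hP ?_)
      exact up_pieces hP (h c (by omega)) _ β inferInstance rfl α inferInstance _ Empty (nor c) 1
        (dm T) le_rfl

end pieces

end Pool.Agent.H95.EM
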