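import Pool.Agent.H95.EM.Defs
import Pool.Agent.H95.EM.Loc
import Pool.Agent.H95.EM.UpBil
import Pool.Agent.H91.QW.FG

/-!
# Finite generation of étale motivic cohomology in one weight
-/

set_option autoImplicit false

open CategoryTheory AlgebraicGeometry MvPolynomial Pool.Agent.Y116.UV Pool.Agent.Z125.UN
  Pool.Agent.H91.QW Pool.Agent.H95.DC

namespace Pool.Agent.H95.EM

section fg

variable {H : ℤ → ℤ → Sch ℤ → ModuleCat.{0} ℤ} (hH : IsEtaleMotivic H)

lemma fg_mono {a b : ℕ} (hab : a ≤ b) {X : Sch ℤ} (h : FGBelow H a X) : FGBelow H b X :=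
  fun n hn i => h n (by omega) i

include hH

lemma fg_isoX {a : ℕ} {X Y : Sch ℤ} (hX : FT True X) (e : Nonempty (X ≅ Y))
    (h : FGBelow H a X) : FGBelow H a Y := fun n hn i => by
  obtain ⟨e'⟩ := (hH.localization n (by omega)).iso hX e i
  exact fg_iso e' (h n hn i)

lemma fg_total {a : ℕ} {Z X U : Sch ℤ} (i : Z ⟶ X) (j : U ⟶ X) (hX : FT True X)
    (ht : IsTriple i j) (hZ : FGBelow H a Z) (hU : FGBelow H a U) : FGBelow H a X := by
  intro n hn l
  obtain ⟨f, g, h, h1, h2, h3⟩ := (hH.localization n (by omega)).les i j hX ht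
  exact fg_mid (f l) (g l) (h1 l) (hZ n hn l) (hU n hn l)

lemma fg_opened {a : ℕ} {Z X U : Sch ℤ} (i : Z ⟶ X) (j : U ⟶ X) (hX : FT True X)
    (ht : IsTriple i j) (hZ : FGBelow H a Z) (hX' : FGBelow H a X) : FGBelow H a U := by
  intro n hn l
  obtain ⟨f, g, h, h1, h2, h3⟩ := (hH.localization n (by omega)).les i j hX ht
  exact fg_mid (g l) (h l) (h2 l) (hX' n hn l) (hZ n hn (l + 1))

lemma fg_closed {a : ℕ} {Z X U : Sch ℤ} (i : Z ⟶ X) (j : U ⟶ X) (hX : FT True X)
    (ht : IsTriple i j) (hX' : FGBelow H a X) (hU : FGBelow H a U) : FGBelow H a Z := by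
  intro n hn l
  obtain ⟨f, g, h, h1, h2, h3⟩ := (hH.localization n (by omega)).les i j hX ht
  have h4 := fg_mid (h (l - 1)) (f (l - 1 + 1)) (h3 (l - 1)) (hU n hn (l - 1))
    (hX' n hn (l - 1 + 1))
  rwa [sub_add_cancel] at h4

lemma fg_bundle {a : ℕ} (A : Type) [CommRing A] [Algebra.FiniteType ℤ A] (m : ℕ)
    (f : Fin (m + 1) → A) (U : Sch ℤ) (hU : IsCompl f U) (h : FGBelow H a U) :
    FGBelow H a (jouZ f) := by
  intro n hn l
  obtain ⟨e⟩ := (hH.bundles n (by omega)).bundle l A m f U hU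
  exact fg_iso e.symm (h (n - m) (by omega) (l + 2 * m))

lemma fg_base {a : ℕ} (A : Type) [CommRing A] [Algebra.FiniteType ℤ A] (m : ℕ)
    (f : Fin (m + 1) → A) (U : Sch ℤ) (hU : IsCompl f U) (h : FGBelow H a (jouZ f)) :
    FGBelow H (a + m) U := by
  intro n hn l
  have hn' : n + m < -(a : ℤ) := by push_cast at hn; omega
  obtain ⟨e⟩ := (hH.bundles (n + m) (by omega)).bundle (l - 2 * m) A m f U hU
  have h1 := fg_iso e (h (n + m) hn' (l - 2 * m))
  rwa [add_sub_cancel_right, sub_add_cancel] at h1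

lemma fg_torus {a : ℕ} (A : Type) [CommRing A] [Algebra.FiniteType ℤ A]
    (h : FGBelow H a (torZ A)) : FGBelow H a (aff ℤ A) := by
  intro n hn l
  obtain ⟨s, r, hs⟩ := hH.torus n (by omega) l A
  refine fg_inj s ?_ (h n hn (l - 1))
  refine Function.LeftInverse.injective (g := r.hom) fun x => (hs x).trans ?_
  exact one_smul ℤ x

lemma fg_line {a : ℕ} (A : Type) [CommRing A] [Algebra.FiniteType ℤ A]
    (h : FGBelow H a (aff ℤ A)) : FGBelow H a (lineZ A) := by
  intro n hn l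
  obtain ⟨e⟩ := (hH.bundles n (by omega)).line l A
  exact fg_iso e.symm (h (n - 1) (by omega) (l + 2))

lemma fg_line' {a : ℕ} (A : Type) [CommRing A] [i : Algebra ℤ A] (hA : Algebra.FiniteType ℤ A)
    (j : Algebra ℤ (Polynomial A)) (h : FGBelow H a (aff ℤ A)) :
    FGBelow H a (@aff ℤ (Polynomial A) _ _ j) := by
  obtain rfl : i = Ring.toIntAlgebra A := Subsingleton.elim _ _
  exact conv _ _ (fg_line hH A h)

lemma fg_space (r : ℕ) : FGBelow H 0 (aff ℤ (MvPolynomial (Fin r) ℤ)) := by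
  induction r with
  | zero =>
    have h1 : FGBelow H 0 (aff ℤ ℤ) := by
      refine fgDim_one hH _ (ft_aff True) ?_
      rw [show topologicalKrullDim (aff ℤ ℤ).left = ringKrullDim ℤ from
        PrimeSpectrum.topologicalKrullDim_eq_ringKrullDim ℤ]
      exact_mod_cast Ring.krullDimLE_iff.mp inferInstance
    exact fg_isoX hH (ft_aff True) ⟨affIso (MvPolynomial.isEmptyAlgEquiv ℤ (Fin 0))⟩ h1
  | succ r ih =>
    have h1 := fg_line' hH (MvPolynomial (Fin r) ℤ) inferInstance inferInstance ih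
    exact fg_isoX hH (ft_aff True) ⟨affIso (MvPolynomial.finSuccEquiv ℤ r)⟩ h1

end fg

section one

variable {H : ℤ → ℤ → Sch ℤ → ModuleCat.{0} ℤ} (hH : IsFlatEtaleMotivic H)

include hH

/-- direct factors -/
lemma fg_factor {M N : ModuleCat.{0} ℤ} (h : IsFactor 1 M N) (hN : Module.Finite ℤ N) :
    Module.Finite ℤ M := by
  obtain ⟨s, r, hs⟩ := h
  refine fg_inj s ?_ hN
  refine Function.LeftInverse.injective (g := r.hom) fun x => (hs x).trans ?_
  exact one_smul ℤ x

lemma loc_fg {n : ℤ} (hn : n < 0) : Loc True (FG H n) where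
  iso hX e h i := by
    obtain ⟨e'⟩ := (hH.localization n hn).iso hX e i
    exact fg_iso e' (h i)
  total i j hX ht hZ hU l := by
    obtain ⟨f, g, h, h1, h2, h3⟩ := (hH.localization n hn).les i j hX ht
    exact fg_mid (f l) (g l) (h1 l) (hZ l) (hU l)
  opened i j hX ht hZ hX' l := by
    obtain ⟨f, g, h, h1, h2, h3⟩ := (hH.localization n hn).les i j hX ht
    exact fg_mid (g l) (h l) (h2 l) (hX' l) (hZ (l + 1))
  closed i j hX ht hX' hU l := by
    obtain ⟨f, g, h, h1, h2, h3⟩ := (hH.localization n hn).les i j hX ht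
    have h4 := fg_mid (h (l - 1)) (f (l - 1 + 1)) (h3 (l - 1)) (hU (l - 1)) (hX' (l - 1 + 1))
    rwa [sub_add_cancel] at h4
  clopen i hX h1 h2 h l := fg_factor hH (hH.clopen n hn i hX h1 h2 l) (h l)

/-- polynomial rings in one variable shift the weight -/
lemma fg_line_iff {n : ℤ} (hn : n < 0) (A : Type) [CommRing A] [i : Algebra ℤ A]
    (hA : Algebra.FiniteType ℤ A) (j : Algebra ℤ (Polynomial A)) :
    FG H n (@aff ℤ (Polynomial A) _ _ j) ↔ FG H (n - 1) (aff ℤ A) := by
  obtain rfl : i = Ring.toIntAlgebra A := Subsingleton.elim _ _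
  have h1 : FG H n (lineZ A) ↔ FG H (n - 1) (aff ℤ A) := by
    constructor
    · intro h l
      obtain ⟨e⟩ := (hH.bundles n hn).line (l - 2) A
      have h2 := fg_iso e (h (l - 2))
      rwa [sub_add_cancel] at h2
    · intro h l
      obtain ⟨e⟩ := (hH.bundles n hn).line l A
      exact fg_iso e.symm (h (l + 2))
  exact ⟨fun h => h1.mp (conv _ _ h), fun h => conv _ _ (h1.mpr h)⟩

/-- polynomial rings shift the weight -/
lemma fg_poly_iff {n : ℤ} (hn : n < 0) (m : ℕ) (A : Type) [CommRing A] [Algebra ℤ A]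
    [Algebra.FiniteType ℤ A] :
    FG H n (aff ℤ (MvPolynomial (Fin m) A)) ↔ FG H (n - m) (aff ℤ A) := by
  induction m generalizing n with
  | zero =>
    rw [Nat.cast_zero, sub_zero]
    have e : MvPolynomial (Fin 0) A ≃ₐ[ℤ] A :=
      (MvPolynomial.isEmptyAlgEquiv A (Fin 0)).restrictScalars ℤ
    have : Algebra.FiniteType ℤ (MvPolynomial (Fin 0) A) :=
      Algebra.FiniteType.trans (S := A) inferInstance inferInstance
    exact ⟨loc_iso (loc_fg hH hn) e, loc_iso (loc_fg hH hn) e.symm⟩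
  | succ m ih =>
    have h1 : Algebra.FiniteType ℤ (MvPolynomial (Fin m) A) :=
      Algebra.FiniteType.trans (S := A) inferInstance inferInstance
    have h2 : Algebra.FiniteType ℤ (MvPolynomial (Fin (m + 1)) A) :=
      Algebra.FiniteType.trans (S := A) inferInstance inferInstance
    have h3 : Algebra.FiniteType ℤ (Polynomial (MvPolynomial (Fin m) A)) :=
      Algebra.FiniteType.trans (S := MvPolynomial (Fin m) A) inferInstance inferInstance
    have e : MvPolynomial (Fin (m + 1)) A ≃ₐ[ℤ] Polynomial (MvPolynomial (Fin m) A) :=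
      (MvPolynomial.finSuccEquiv A m).restrictScalars ℤ
    have h4 : FG H n (aff ℤ (MvPolynomial (Fin (m + 1)) A)) ↔
        FG H n (aff ℤ (Polynomial (MvPolynomial (Fin m) A))) :=
      ⟨loc_iso (loc_fg hH hn) e, loc_iso (loc_fg hH hn) e.symm⟩
    rw [h4, fg_line_iff hH hn (MvPolynomial (Fin m) A) inferInstance, ih (by omega)]
    have h5 : n - 1 - (m : ℤ) = n - ((m + 1 : ℕ) : ℤ) := by push_cast; ring
    rw [h5]

/-- **The covering and the zero scheme.** -/
theorem fg_cov_iff {n : ℤ} (hn : n < 0) {A : Type} [CommRing A] [Algebra ℤ A]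
    [Algebra.FiniteType ℤ A] {m : ℕ} (f : Fin m → A) (hA : FG H (n - m) (aff ℤ A))
    (S : Finset ℤ) (hu : UnitDiff S) (hS : 2 ≤ S.card) :
    FG H n (aff ℤ (Cov S f)) ↔ FG H (n - m) (aff ℤ (A ⧸ Ideal.span (Set.range f))) := by
  refine loc_cov_iff (P := FG H n) (Q := FG H (n - m)) (loc_fg hH hn) f ?_
    (fun B _ _ _ => fg_poly_iff hH hn m B) hA S hu hS
  intro V S q hV hS hq hf h l
  obtain ⟨e⟩ := hH.fibres n hn q m hV hS hq hf l
  exact fg_iso e.symm (h (l + 2 * m))

end one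

end Pool.Agent.H95.EM
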