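import Pool.Agent.H95.EM.Fg

/-!
# Étale motivic cohomology of arithmetic schemes, and coverings of affine spaces
-/

set_option autoImplicit false

open CategoryTheory AlgebraicGeometry MvPolynomial Pool.Agent.Y116.UV Pool.Agent.Z125.UN
  Pool.Agent.H91.QW Pool.Agent.H95.DC

namespace Pool.Agent.H95.EM

variable {F : Set (Sch ℤ)}

lemma reduces_mem {X : Sch ℤ} (hX : X ∈ F) : ReducesTo F X :=
  ⟨0, {X}, Set.finite_singleton X, Set.singleton_subset_iff.mpr hX,
    fun _ _ _ h => h X (Set.mem_singleton X)⟩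

lemma reduces_two (c : ℕ) {X Y W : Sch ℤ}
    (h : ∀ H : ℤ → ℤ → Sch ℤ → ModuleCat.{0} ℤ, IsFlatEtaleMotivic H → ∀ a : ℕ,
      FGBelow H a X → FGBelow H a Y → FGBelow H (a + c) W)
    (hX : ReducesTo F X) (hY : ReducesTo F Y) : ReducesTo F W := by
  obtain ⟨b, L, h1, h2, h3⟩ := hX
  obtain ⟨b', L', h1', h2', h3'⟩ := hY
  refine ⟨max b b' + c, L ∪ L', h1.union h1', Set.union_subset h2 h2', fun H hH a hL => ?_⟩
  rw [← add_assoc]
  refine h H hH (a + max b b') ?_ ?_
  · exact fg_mono (by omega) (h3 H hH a fun Y hY => hL Y (Or.inl hY))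
  · exact fg_mono (by omega) (h3' H hH a fun Y hY => hL Y (Or.inr hY))

lemma reduces_one (c : ℕ) {X W : Sch ℤ}
    (h : ∀ H : ℤ → ℤ → Sch ℤ → ModuleCat.{0} ℤ, IsFlatEtaleMotivic H → ∀ a : ℕ,
      FGBelow H a X → FGBelow H (a + c) W)
    (hX : ReducesTo F X) : ReducesTo F W := by
  obtain ⟨b, L, h1, h2, h3⟩ := hX
  refine ⟨b + c, L, h1, h2, fun H hH a hL => ?_⟩
  rw [← add_assoc]
  exact h H hH (a + b) (h3 H hH a hL)

lemma reduces_space (r : ℕ) : ReducesTo F (aff ℤ (MvPolynomial (Fin r) ℤ)) :=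
  ⟨0, ∅, Set.finite_empty, Set.empty_subset F, fun _ hH _ _ =>
    fg_mono (Nat.zero_le _) (fg_space hH.toIsEtaleMotivic r)⟩

lemma reduces_conv {A : Type} [CommRing A] (i1 i2 : Algebra ℤ A)
    (h : ReducesTo F (@aff ℤ A _ _ i1)) : ReducesTo F (@aff ℤ A _ _ i2) := by
  rwa [Subsingleton.elim i2 i1]

/-- the empty scheme -/
lemma reduces_empty {U : Sch ℤ} (hU : IsEmpty U.left) : ReducesTo F U := by
  have h0 : ReducesTo F (aff ℤ ℤ) := by
    have h1 : ReducesTo F (aff ℤ (MvPolynomial (Fin 0) ℤ)) := reduces_space 0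
    refine reduces_one 0 (fun H hH a h => ?_) h1
    exact fg_isoX hH.toIsEtaleMotivic (ft_aff True)
      ⟨affIso (MvPolynomial.isEmptyAlgEquiv ℤ (Fin 0)).symm⟩ h
  let j : U ⟶ aff ℤ ℤ := Over.homMk U.hom (by
    change U.hom ≫ Spec.map (CommRingCat.ofHom (algebraMap ℤ ℤ)) = U.hom
    rw [Algebra.algebraMap_self]
    exact (congrArg _ (Spec.map_id _)).trans (Category.comp_id _))
  have hj : IsOpenImmersion j.left := inferInstance
  refine reduces_one 0 (fun H hH a h => ?_) h0
  refine fg_opened hH.toIsEtaleMotivic (𝟙 (aff ℤ ℤ)) j (ft_aff True) ⟨?_, hj, ?_⟩ h h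
  · change IsClosedImmersion (𝟙 (aff ℤ ℤ).left)
    infer_instance
  · have h2 : Set.range j.left = ∅ := Set.range_eq_empty_iff.mpr hU
    rw [h2, Set.compl_empty]
    exact Set.range_eq_univ.mpr fun x => ⟨x, rfl⟩

/-- the complement of nothing -/
lemma isEmpty_of_range {A : Type} [CommRing A] [Algebra ℤ A] (f : Fin 0 → A) {U : Sch ℤ}
    (j : U ⟶ aff ℤ A)
    (h : Set.range j.left = {x : PrimeSpectrum A | ∃ l, f l ∉ x.asIdeal}) : IsEmpty U.left := by
  refine ⟨fun x => ?_⟩
  have h1 : j.left x ∈ Set.range j.left := ⟨x, rfl⟩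
  rw [h] at h1
  exact h1.choose.elim0

lemma isEmpty_jou {A : Type} [CommRing A] [Algebra ℤ A] (f : Fin 0 → A) (i : Algebra ℤ (Jou f)) :
    IsEmpty (@aff ℤ (Jou f) _ _ i).left := by
  have h1 : Subsingleton (Jou f) := by
    rw [Ideal.Quotient.subsingleton_iff, Ideal.span_singleton_eq_top]
    simp
  change IsEmpty (PrimeSpectrum (Jou f))
  infer_instance

/-- the property is closed under all operations -/
theorem bnd_reduces (F : Set (Sch ℤ)) : Bnd True (ReducesTo F) where
  iso hX e := reduces_one 0 fun H hH a => fg_isoX hH.toIsEtaleMotivic hX e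
  total i j hX ht := reduces_two 0 fun H hH a => fg_total hH.toIsEtaleMotivic i j hX ht
  opened i j hX ht := reduces_two 0 fun H hH a => fg_opened hH.toIsEtaleMotivic i j hX ht
  closed i j hX ht := reduces_two 0 fun H hH a => fg_closed hH.toIsEtaleMotivic i j hX ht
  space := reduces_space
  jouanolou A _ i hA m f U j hj hr h := by
    obtain rfl : i = Ring.toIntAlgebra A := Subsingleton.elim _ _
    cases m with
    | zero => exact reduces_empty (isEmpty_of_range f j hr)
    | succ m =>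
      exact reduces_one m (fun H hH a => fg_base hH.toIsEtaleMotivic A m f U ⟨j, hj, hr⟩)
        (reduces_conv _ _ h)
  torus A _ i hA h := by
    obtain rfl : i = Ring.toIntAlgebra A := Subsingleton.elim _ _
    exact reduces_one 0 (fun H hH a => fg_torus hH.toIsEtaleMotivic A) (reduces_conv _ _ h)
  bundle A _ i hA m f U j hj hr h := by
    obtain rfl : i = Ring.toIntAlgebra A := Subsingleton.elim _ _
    cases m with
    | zero => exact reduces_empty (isEmpty_jou f _)
    | succ m =>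
      exact reduces_conv _ _ (reduces_one 0
        (fun H hH a => fg_bundle hH.toIsEtaleMotivic A m f U ⟨j, hj, hr⟩) h)

/-- coverings -/
theorem covP_reduces (F : Set (Sch ℤ)) :
    CovP True (fun S : Finset ℤ => 2 ≤ S.card) (ReducesTo F) where
  toBnd := bnd_reduces F
  cov A _ _ _ S hu hS m f hA := by
    constructor
    · refine reduces_two m (fun H hH a h1 h2 n hn => ?_) hA
      push_cast at hn
      have h3 := (fg_cov_iff hH (n := n + m) (by omega) f
        (by rw [add_sub_cancel_right]; exact h1 n (by omega)) S hu hS).mp (h2 (n + m) (by omega))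
      rw [add_sub_cancel_right] at h3
      exact h3
    · refine reduces_two 0 (fun H hH a h1 h2 n hn => ?_) hA
      push_cast at hn
      exact (fg_cov_iff hH (n := n) (by omega) f (h1 _ (by omega)) S hu hS).mpr (h2 _ (by omega))

/-- the two roots -/
lemma unitDiff_two : UnitDiff ({0, 1} : Finset ℤ) := by
  intro c hc c' hc' h
  simp only [Finset.mem_insert, Finset.mem_singleton] at hc hc'
  rcases hc with rfl | rfl <;> rcases hc' with rfl | rfl
  · exact absurd rfl h
  · exact ⟨-1, by norm_num⟩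
  · exact ⟨1, by norm_num⟩
  · exact absurd rfl h

lemma card_two : 2 ≤ ({0, 1} : Finset ℤ).card := by decide

/-- **All arithmetic schemes.** -/
theorem reduces_sparse (X : Sch ℤ) (hX : FT True X) : ReducesTo sparse X :=
  (three_cov (covP_reduces sparse) (fun x => ⟨x, rfl⟩) {0, 1} unitDiff_two card_two).mpr
    (fun a b c E hE => reduces_mem ⟨a, b, c, E, hE, rfl⟩) X hX

lemma forms_iff (F : Set (Sch ℤ)) {a b c : ℕ} (t : Fin a → Fin b → Fin c → ℤ) :
    ReducesTo F (dblS (bq t)) ↔ ReducesTo F (hypS t) := by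
  rw [← Pool.Agent.N882.UE.bil_iff (bnd_reduces F) t]
  exact covS_iff (covP_reduces F) {0, 1} unitDiff_two card_two (bq t)

/-- **Closed subschemes of affine spaces.** -/
theorem closed_to_forms (N : ℕ) (Y : Sch ℤ) (hY : Y ∈ closedIn N) :
    ReducesTo (forms (N + 1)) Y := by
  obtain ⟨I, rfl⟩ := hY
  refine (graded (bnd_reduces (forms (N + 1))) N).mpr (fun a b t => ?_) I
  exact (forms_iff _ t).mp (reduces_mem ⟨a, b, t, rfl⟩)

theorem forms_to_closed (N : ℕ) (Y : Sch ℤ) (hY : Y ∈ forms (N + 1)) :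
    ReducesTo (closedIn N) Y := by
  obtain ⟨a, b, t, rfl⟩ := hY
  refine (forms_iff _ t).mpr ?_
  exact (graded (bnd_reduces (closedIn N)) N).mp (fun I => reduces_mem ⟨I, rfl⟩) a b t

end Pool.Agent.H95.EM
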